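import Pool.Agent.H381R4.BP.Stubs
import Pool.Agent.H541CM.POL
import Pool.Agent.H410R3.CMBMP
import Pool.Agent.H227CM.PTP

/-! Task PTW of project BP (helper329). -/

set_option autoImplicit false
open MeasureTheory Matrix Filter Topology
open scoped ENNReal BigOperators Pointwise

namespace Pool.Agent.H381BP
open Pool.Agent.H381CM

theorem T_PTW : S_PTW := by
  intro d ι _ u hu
  obtain ⟨-, -, -, hnull⟩ := T_PTP d ι u hu
  have h1 : ∀ᵐ x : V d, ¬ ∃ k, |u k ⬝ᵥ x| = 1 := by
    rw [ae_iff]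
    simpa using hnull
  exact h1.mono fun x hx =>
    (tendsto_add_atTop_iff_nat 1).1 (POL_lim Pool.Agent.H410CM.T_BMP u x hx)

end Pool.Agent.H381BP
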